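import Pool.Agent.Helper42.GW.St

/-!
# GP COR-W wRel: relabelling which respects the cyclic order
-/

set_option autoImplicit false

namespace Pool.Agent.Helper81.GW

open Pool.Agent.Helper18.GP Pool.Agent.Helper62.GP Pool.Agent.Helper42.GW Pool.Agent.Helper13.GP
open Relation Classical

section

variable {N N' : ℕ} {V : Finset (Fin N)} {G : SimpleGraph (Fin N)} {P : Fin N → ℂ}
  {f : Fin N → Fin N'}

/-- the transported graph -/
private def gr (V : Finset (Fin N)) (G : SimpleGraph (Fin N)) (f : Fin N → Fin N')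
    (hf : ∀ a ∈ V, ∀ b ∈ V, f a = f b → a = b) : SimpleGraph (Fin N') where
  Adj x y := ∃ a ∈ V, ∃ b ∈ V, f a = x ∧ f b = y ∧ G.Adj a b
  symm := ⟨by
    rintro x y ⟨a, ha, b, hb, h1, h2, h3⟩
    exact ⟨b, hb, a, ha, h2, h1, h3.symm⟩⟩
  loopless := ⟨by
    rintro x ⟨a, ha, b, hb, h1, h2, h3⟩
    exact h3.ne (hf a ha b hb (h1.trans h2.symm))⟩

private theorem gr_adj (hf : ∀ a ∈ V, ∀ b ∈ V, f a = f b → a = b) {a b : Fin N} (ha : a ∈ V)
    (hb : b ∈ V) : (gr V G f hf).Adj (f a) (f b) ↔ G.Adj a b := by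
  constructor
  · rintro ⟨a', ha', b', hb', h1, h2, h3⟩
    rw [hf a' ha' a ha h1, hf b' hb' b hb h2] at h3
    exact h3
  · intro h
    exact ⟨a, ha, b, hb, rfl, rfl, h⟩

private theorem ccw_iff (hf : ∀ a ∈ V, ∀ b ∈ V, f a = f b → a = b)
    (hc : ∀ a ∈ V, ∀ b ∈ V, ∀ c ∈ V, Ccw a b c → Ccw (f a) (f b) (f c)) {a b c : Fin N}
    (ha : a ∈ V) (hb : b ∈ V) (hcV : c ∈ V) : Ccw (f a) (f b) (f c) ↔ Ccw a b c := by
  refine ⟨fun h => ?_, hc a ha b hb c hcV⟩
  have h1 : a ≠ b := fun e => Ccw_ne12 h (by rw [e])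
  have h2 : b ≠ c := fun e => Ccw_ne23 h (by rw [e])
  have h3 : a ≠ c := fun e => Ccw_ne13 h (by rw [e])
  rcases Ccw_total h1 h2 h3 with h4 | h4
  · exact h4
  · exact absurd (hc a ha c hcV b hb h4) (Ccw_asymm h)

private theorem crs_iff (hf : ∀ a ∈ V, ∀ b ∈ V, f a = f b → a = b)
    (hc : ∀ a ∈ V, ∀ b ∈ V, ∀ c ∈ V, Ccw a b c → Ccw (f a) (f b) (f c)) {a b c d : Fin N}
    (ha : a ∈ V) (hb : b ∈ V) (hcV : c ∈ V) (hd : d ∈ V) :
    Crs (f a) (f b) (f c) (f d) ↔ Crs a b c d := by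
  unfold Crs
  rw [ccw_iff hf hc ha hcV hb, ccw_iff hf hc ha hb hd, ccw_iff hf hc ha hd hb,
    ccw_iff hf hc ha hb hcV]

private theorem tri (hf : ∀ a ∈ V, ∀ b ∈ V, f a = f b → a = b)
    (hc : ∀ a ∈ V, ∀ b ∈ V, ∀ c ∈ V, Ccw a b c → Ccw (f a) (f b) (f c)) (hT : IsTri V G) :
    IsTri (V.image f) (gr V G f hf) := by
  constructor
  · intro x hx y hy z hz w hw hxy hzw
    obtain ⟨a, ha, rfl⟩ := Finset.mem_image.1 hx
    obtain ⟨b, hb, rfl⟩ := Finset.mem_image.1 hy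
    obtain ⟨c, hcV, rfl⟩ := Finset.mem_image.1 hz
    obtain ⟨d, hd, rfl⟩ := Finset.mem_image.1 hw
    rw [crs_iff hf hc ha hb hcV hd]
    exact hT.nc a ha b hb c hcV d hd ((gr_adj hf ha hb).1 hxy) ((gr_adj hf hcV hd).1 hzw)
  · intro x hx y hy hxy hna
    obtain ⟨a, ha, rfl⟩ := Finset.mem_image.1 hx
    obtain ⟨b, hb, rfl⟩ := Finset.mem_image.1 hy
    obtain ⟨c, hcV, d, hd, h1, h2⟩ := hT.mx a ha b hb (fun e => hxy (by rw [e]))
      (fun h => hna ((gr_adj hf ha hb).2 h))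
    exact ⟨f c, Finset.mem_image_of_mem f hcV, f d, Finset.mem_image_of_mem f hd,
      (gr_adj hf hcV hd).2 h1, (crs_iff hf hc ha hb hcV hd).2 h2⟩

/-- the transported positions -/
private noncomputable def ps (V : Finset (Fin N)) (P : Fin N → ℂ) (f : Fin N → Fin N') :
    Fin N' → ℂ := fun x => if h : ∃ a ∈ V, f a = x then P h.choose else 0

private theorem ps_eq (hf : ∀ a ∈ V, ∀ b ∈ V, f a = f b → a = b) {v : Fin N} (hv : v ∈ V) :
    ps V P f (f v) = P v := by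
  have h : ∃ a ∈ V, f a = f v := ⟨v, hv, rfl⟩
  unfold ps
  rw [dif_pos h]
  congr 1
  exact hf _ h.choose_spec.1 _ hv h.choose_spec.2

private theorem st (hf : ∀ a ∈ V, ∀ b ∈ V, f a = f b → a = b)
    (hc : ∀ a ∈ V, ∀ b ∈ V, ∀ c ∈ V, Ccw a b c → Ccw (f a) (f b) (f c)) (hS : St V G P) :
    St (V.image f) (gr V G f hf) (ps V P f) := by
  intro x hx y hy z hz h1 h2 h3 h4
  obtain ⟨a, ha, rfl⟩ := Finset.mem_image.1 hx
  obtain ⟨b, hb, rfl⟩ := Finset.mem_image.1 hy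
  obtain ⟨c, hcV, rfl⟩ := Finset.mem_image.1 hz
  rw [ps_eq hf ha, ps_eq hf hb, ps_eq hf hcV]
  exact hS a ha b hb c hcV ((ccw_iff hf hc ha hb hcV).1 h1) ((gr_adj hf ha hb).1 h2)
    ((gr_adj hf hb hcV).1 h3) ((gr_adj hf ha hcV).1 h4)

private theorem ang_eq (hf : ∀ a ∈ V, ∀ b ∈ V, f a = f b → a = b)
    (hc : ∀ a ∈ V, ∀ b ∈ V, ∀ c ∈ V, Ccw a b c → Ccw (f a) (f b) (f c)) {v : Fin N}
    (hv : v ∈ V) : ang (V.image f) (gr V G f hf) (ps V P f) (f v) = ang V G P v := by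
  unfold ang
  have hT : tris (V.image f) (gr V G f hf) (f v) =
      (tris V G v).image (fun e => (f e.1, f e.2)) := by
    ext ⟨x, y⟩
    constructor
    · intro h
      simp only [tris, Finset.mem_filter, Finset.mem_product] at h
      obtain ⟨⟨hx, hy⟩, h1, h2, h3, h4⟩ := h
      obtain ⟨a, ha, rfl⟩ := Finset.mem_image.1 hx
      obtain ⟨b, hb, rfl⟩ := Finset.mem_image.1 hy
      refine Finset.mem_image.2 ⟨(a, b), ?_, rfl⟩
      simp only [tris, Finset.mem_filter, Finset.mem_product]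
      exact ⟨⟨ha, hb⟩, (ccw_iff hf hc hv ha hb).1 h1, (gr_adj hf hv ha).1 h2,
        (gr_adj hf hv hb).1 h3, (gr_adj hf ha hb).1 h4⟩
    · intro h
      obtain ⟨⟨a, b⟩, h, he⟩ := Finset.mem_image.1 h
      simp only [tris, Finset.mem_filter, Finset.mem_product] at h
      obtain ⟨⟨ha, hb⟩, h1, h2, h3, h4⟩ := h
      simp only [Prod.mk.injEq] at he
      rw [← he.1, ← he.2]
      simp only [tris, Finset.mem_filter, Finset.mem_product]
      exact ⟨⟨Finset.mem_image_of_mem f ha, Finset.mem_image_of_mem f hb⟩,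
        (ccw_iff hf hc hv ha hb).2 h1, (gr_adj hf hv ha).2 h2,
        (gr_adj hf hv hb).2 h3, (gr_adj hf ha hb).2 h4⟩
  have hmem : ∀ e ∈ tris V G v, e.1 ∈ V ∧ e.2 ∈ V := by
    intro e he
    simp only [tris, Finset.mem_filter, Finset.mem_product] at he
    exact he.1
  rw [hT, Finset.sum_image]
  · refine Finset.sum_congr rfl fun e he => ?_
    rw [ps_eq hf hv, ps_eq hf (hmem e he).1, ps_eq hf (hmem e he).2]
  · intro e he e' he' h
    have h1 := hmem e he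
    have h2 := hmem e' he'
    simp only [Prod.mk.injEq] at h
    exact Prod.ext (hf _ h1.1 _ h2.1 h.1) (hf _ h1.2 _ h2.2 h.2)

/-- the map on points -/
private noncomputable def th (V : Finset (Fin N)) (f : Fin N → Fin N') (x : Fin N → ℝ) :
    Fin N' → ℝ := fun w => ∑ v ∈ V with f v = w, x v

private theorem th_eq (hf : ∀ a ∈ V, ∀ b ∈ V, f a = f b → a = b) {v : Fin N} (hv : v ∈ V)
    (x : Fin N → ℝ) : th V f x (f v) = x v := by
  unfold th
  have h : (V.filter fun u => f u = f v) = {v} := by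
    ext u
    rw [Finset.mem_filter, Finset.mem_singleton]
    constructor
    · rintro ⟨h1, h2⟩; exact hf u h1 v hv h2
    · rintro rfl; exact ⟨hv, rfl⟩
  rw [h, Finset.sum_singleton]

private theorem th_ne {x : Fin N → ℝ} {w : Fin N'} (h : th V f x w ≠ 0) :
    ∃ v ∈ V, f v = w ∧ x v ≠ 0 := by
  obtain ⟨v, hv, hx⟩ := Finset.exists_ne_zero_of_sum_ne_zero h
  rw [Finset.mem_filter] at hv
  exact ⟨v, hv.1, hv.2, hx⟩

private theorem th_dl (hf : ∀ a ∈ V, ∀ b ∈ V, f a = f b → a = b) {v : Fin N} (hv : v ∈ V) :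
    th V f (dl v) = dl (f v) := by
  funext w
  by_cases hw : f v = w
  · subst hw
    rw [th_eq hf hv]
    unfold dl
    rw [Pi.single_eq_same, Pi.single_eq_same]
  · have h1 : (dl (f v) : Fin N' → ℝ) w = 0 := by
      unfold dl
      rw [Pi.single_eq_of_ne (fun e => hw e.symm)]
    rw [h1]
    by_contra hne
    obtain ⟨u, _, hu2, hu3⟩ := th_ne hne
    apply hu3
    unfold dl
    rw [Pi.single_eq_of_ne]
    rintro rfl
    exact hw hu2

private theorem th_mem (hf : ∀ a ∈ V, ∀ b ∈ V, f a = f b → a = b) {x : Fin N → ℝ}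
    (hx : x ∈ Pts V G) : th V f x ∈ Pts (V.image f) (gr V G f hf) := by
  obtain ⟨h1, h2, h3, h4⟩ := hx
  refine ⟨?_, ?_, ?_, ?_⟩
  · intro w
    exact Finset.sum_nonneg fun v _ => h1 v
  · unfold th
    rw [Finset.sum_fiberwise V f x, ← h2]
    exact Finset.sum_subset (Finset.subset_univ _) fun v _ hv => by
      by_contra hne
      exact hv (h3 v hne)
  · intro w hw
    obtain ⟨v, hv, rfl, _⟩ := th_ne hw
    exact Finset.mem_image_of_mem f hv
  · intro a b ha hb hab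
    obtain ⟨u, hu, rfl, hu2⟩ := th_ne ha
    obtain ⟨v, hv, rfl, hv2⟩ := th_ne hb
    exact (gr_adj hf hu hv).2 (h4 u v hu2 hv2 (fun e => hab (by rw [e])))

private theorem th_dev (hf : ∀ a ∈ V, ∀ b ∈ V, f a = f b → a = b) {x : Fin N → ℝ}
    (hx : x ∈ Pts V G) : dev (ps V P f) (th V f x) = dev P x := by
  unfold dev
  have h1 : ∑ v, (x v : ℂ) * P v = ∑ v ∈ V, (x v : ℂ) * P v := by
    symm
    exact Finset.sum_subset (Finset.subset_univ _) fun v _ hv => by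
      have : x v = 0 := by
        by_contra hne
        exact hv (hx.2.2.1 v hne)
      rw [this]; simp
  rw [h1, ← Finset.sum_fiberwise V f]
  refine Finset.sum_congr rfl fun w _ => ?_
  unfold th
  rw [Complex.ofReal_sum, Finset.sum_mul]
  refine Finset.sum_congr rfl fun v hv => ?_
  rw [Finset.mem_filter] at hv
  rw [← hv.2, ps_eq hf hv.1]

private theorem th_sh (hf : ∀ a ∈ V, ∀ b ∈ V, f a = f b → a = b) {x y : Fin N → ℝ}
    (h : Sh G x y) : Sh (gr V G f hf) (th V f x) (th V f y) := by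
  have key : ∀ w, (th V f x w ≠ 0 ∨ th V f y w ≠ 0) →
      ∃ v ∈ V, f v = w ∧ (x v ≠ 0 ∨ y v ≠ 0) := by
    rintro w (hw | hw)
    · obtain ⟨v, h1, h2, h3⟩ := th_ne hw
      exact ⟨v, h1, h2, Or.inl h3⟩
    · obtain ⟨v, h1, h2, h3⟩ := th_ne hw
      exact ⟨v, h1, h2, Or.inr h3⟩
  intro a b ha hb hab
  obtain ⟨u, hu, rfl, hu2⟩ := key a ha
  obtain ⟨v, hv, rfl, hv2⟩ := key b hb
  exact (gr_adj hf hu hv).2 (h u v hu2 hv2 (fun e => hab (by rw [e])))

private theorem ch_fst {x y : Fin N → ℝ} {c : ℝ} (h : Ch V G P x y c) : x ∈ Pts V G := by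
  cases h with
  | nil _ hx => exact hx
  | cons _ _ _ _ hx _ _ => exact hx

private theorem ch_nonneg {x y : Fin N → ℝ} {c : ℝ} (h : Ch V G P x y c) : 0 ≤ c := by
  induction h with
  | nil _ _ => exact le_rfl
  | cons _ _ _ _ _ _ _ ih => exact add_nonneg (norm_nonneg _) ih

private theorem dK_nonneg (x y : Fin N → ℝ) : 0 ≤ dK V G P x y :=
  Real.sInf_nonneg fun _ hc => ch_nonneg hc

private theorem th_ch (hf : ∀ a ∈ V, ∀ b ∈ V, f a = f b → a = b) {x y : Fin N → ℝ} {c : ℝ}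
    (h : Ch V G P x y c) :
    Ch (V.image f) (gr V G f hf) (ps V P f) (th V f x) (th V f y) c := by
  induction h with
  | nil x hx => exact Ch.nil _ (th_mem hf hx)
  | cons x y z c hx hs h ih =>
    rw [← th_dev (P := P) hf hx, ← th_dev (P := P) hf (ch_fst h)]
    exact Ch.cons _ _ _ _ (th_mem hf hx) (th_sh hf hs) ih

private theorem th_dK (h1 : stMet) (hf : ∀ a ∈ V, ∀ b ∈ V, f a = f b → a = b)
    (hT : IsTri V G) {x y : Fin N → ℝ} (hx : x ∈ Pts V G) (hy : y ∈ Pts V G) :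
    dK (V.image f) (gr V G f hf) (ps V P f) (th V f x) (th V f y) ≤ dK V G P x y := by
  refine csInf_le ⟨0, fun c hc => ch_nonneg hc⟩ ?_
  exact th_ch hf ((h1 N V G P hT).att x hx y hy)

private theorem th_Ln (h1 : stMet) (h2 : stLnP)
    (hf : ∀ a ∈ V, ∀ b ∈ V, f a = f b → a = b) (hT : IsTri V G) {B : Finset (Fin N)}
    (hB : B ⊆ V) : Ln (V.image f) (gr V G f hf) (ps V P f) (B.image f) ≤ Ln V G P B := by
  obtain ⟨E, hE1, hE2, hE3⟩ := (h2 N V G P hT).att B hB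
  rw [hE3]
  set d' := dK (V.image f) (gr V G f hf) (ps V P f) with hd'
  have hle : nlen d' (E.map fun e => (th V f e.1, th V f e.2)) ≤ nlen (dK V G P) E := by
    unfold nlen
    rw [List.map_map]
    refine List.sum_le_sum fun e he => ?_
    exact th_dK h1 hf hT (hE1 e he).1 (hE1 e he).2
  refine le_trans (csInf_le ⟨0, ?_⟩ ⟨E.map fun e => (th V f e.1, th V f e.2), ?_, ?_, rfl⟩) hle
  · rintro c ⟨E', _, _, rfl⟩
    unfold nlen
    refine List.sum_nonneg fun t ht => ?_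
    obtain ⟨e, _, rfl⟩ := List.mem_map.1 ht
    exact dK_nonneg _ _
  · intro e he
    obtain ⟨e', he', rfl⟩ := List.mem_map.1 he
    exact ⟨th_mem hf (hE1 e' he').1, th_mem hf (hE1 e' he').2⟩
  · have hgen : ∀ x y, EqvGen (fun x y => (x, y) ∈ E) x y →
        EqvGen (fun x y => (x, y) ∈ E.map fun e => (th V f e.1, th V f e.2))
          (th V f x) (th V f y) := by
      intro x y h
      induction h with
      | rel x y h =>
        exact EqvGen.rel _ _ (List.mem_map.2 ⟨(x, y), h, rfl⟩)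
      | refl x => exact EqvGen.refl _
      | symm x y _ ih => exact EqvGen.symm _ _ ih
      | trans x y z _ _ ih1 ih2 => exact EqvGen.trans _ _ _ ih1 ih2
    have hpt : ∀ a ∈ (dl '' ((B.image f : Finset (Fin N')) : Set (Fin N')) : Set (Fin N' → ℝ)),
        ∃ u ∈ B, a = th V f (dl u) := by
      rintro a ⟨w, hw, rfl⟩
      obtain ⟨u, hu, rfl⟩ := Finset.mem_image.1 (Finset.mem_coe.1 hw)
      exact ⟨u, hu, (th_dl hf (hB hu)).symm⟩
    intro a ha b hb
    obtain ⟨u, hu, rfl⟩ := hpt a ha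
    obtain ⟨v, hv, rfl⟩ := hpt b hb
    exact hgen _ _ (hE2 _ ⟨u, Finset.mem_coe.2 hu, rfl⟩ _ ⟨v, Finset.mem_coe.2 hv, rfl⟩)

end

theorem wRel_thm (h1 : stMet) (h2 : stLnP) : wRel := by
  intro N N' V G P f hT hS hf hc
  exact ⟨gr V G f hf, ps V P f, tri hf hc hT, st hf hc hS, fun v hv => ps_eq hf hv,
    fun v hv => ang_eq hf hc hv, fun B hB => th_Ln h1 h2 hf hT hB⟩

end Pool.Agent.Helper81.GW
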