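import Pool.Agent.Helper81.GW.SMWb

/-!
# Project GW, module SMW: second moment of a smooth block on a window
-/

set_option autoImplicit false

namespace Pool.Agent.Helper81.GW

open Finset ArithmeticFunction MeasureTheory
open Pool.Agent.Helper2.MR (ch)
open Pool.Agent.Helper23.GK
open Pool.Agent.Helper63.GW
open Pool.Agent.Helper64.GK

/-- sums over complete blocks of residues -/
lemma sum_blocks (f : ℕ → ℂ) (q a b : ℕ) (hab : a ≤ b) :
    ∑ n ∈ Ico (q * a) (q * b), f n = ∑ m ∈ Ico a b, ∑ r ∈ range q, f (q * m + r) := by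
  induction b, hab using Nat.le_induction with
  | base => simp
  | succ b hb ih =>
    rw [Finset.sum_Ico_succ_top hb, ← ih,
      ← Finset.sum_Ico_consecutive f (Nat.mul_le_mul_left q hb) (Nat.mul_le_mul_left q b.le_succ)]
    congr 1
    rw [Finset.sum_Ico_eq_sum_range]
    congr 1
    · rw [Nat.mul_succ]; simp

lemma tnt_nonneg (e n : ℕ) : 0 ≤ tnt e n := le_max_left _ _

lemma tnt_le_one (e n : ℕ) : tnt e n ≤ 1 := by
  unfold tnt
  refine max_le zero_le_one ?_
  have := abs_nonneg (Real.logb 2 n - e)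
  linarith

lemma tnt_lip (e n n' : ℕ) (hn : 1 ≤ n) (hnn : n ≤ n') :
    |tnt e n - tnt e n'| ≤ 2 * ((n' : ℝ) - n) / n := by
  have hn0 : (0 : ℝ) < n := by exact_mod_cast hn
  have hn0' : (0 : ℝ) < n' := by exact_mod_cast (show 0 < n' by omega)
  have hle : (n : ℝ) ≤ n' := by exact_mod_cast hnn
  have h1 : |tnt e n - tnt e n'| ≤ |Real.logb 2 n - Real.logb 2 n'| := by
    unfold tnt
    rw [max_comm 0, max_comm 0]
    refine (abs_max_sub_max_le_abs _ _ _).trans ?_
    rw [show 1 - |Real.logb 2 n - e| - (1 - |Real.logb 2 n' - e|) =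
      |Real.logb 2 n' - e| - |Real.logb 2 n - e| by ring]
    refine (abs_abs_sub_abs_le_abs_sub _ _).trans ?_
    rw [show Real.logb 2 n' - e - (Real.logb 2 n - e) = -(Real.logb 2 n - Real.logb 2 n') by ring,
      abs_neg]
  refine h1.trans ?_
  have h2 : Real.log n' - Real.log n ≤ ((n' : ℝ) - n) / n := by
    rw [← Real.log_div hn0'.ne' hn0.ne']
    have := Real.log_le_sub_one_of_pos (show 0 < (n' : ℝ) / n by positivity)
    calc Real.log (n' / n) ≤ (n' : ℝ) / n - 1 := this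
      _ = ((n' : ℝ) - n) / n := by field_simp
  have h3 : Real.log n ≤ Real.log n' := Real.log_le_log hn0 hle
  have hl2 : (1 / 2 : ℝ) ≤ Real.log 2 := by
    have := Real.log_two_gt_d9; linarith
  rw [abs_sub_comm, Real.logb, Real.logb, ← sub_div, abs_div, abs_of_nonneg (by linarith),
    abs_of_pos (by linarith), div_le_iff₀ (by linarith)]
  have h4 : 0 ≤ ((n' : ℝ) - n) / n := div_nonneg (by linarith) hn0.le
  calc Real.log n' - Real.log n ≤ ((n' : ℝ) - n) / n := h2
    _ = 2 * (((n' : ℝ) - n) / n) * (1 / 2) := by ring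
    _ ≤ 2 * (((n' : ℝ) - n) / n) * Real.log 2 :=
        mul_le_mul_of_nonneg_left hl2 (by positivity)
    _ = _ := by ring

/-- variation of the weight -/
lemma w0_lip (hB : StBkb) (i : Fin 8) (hi : 4 ≤ (i : ℕ)) (e n n' : ℕ) (hn : 1 ≤ n)
    (hnn : n ≤ n') : |w0 i e n - w0 i e n'| ≤ 3 * (1 + e) * ((n' : ℝ) - n) / n := by
  have hn0 : (0 : ℝ) < n := by exact_mod_cast hn
  have hn0' : (0 : ℝ) < n' := by exact_mod_cast (show 0 < n' by omega)
  have hle : (n : ℝ) ≤ n' := by exact_mod_cast hnn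
  have he : (0 : ℝ) ≤ e := Nat.cast_nonneg e
  have h4 : 0 ≤ ((n' : ℝ) - n) / n := div_nonneg (by linarith) hn0.le
  have ht := tnt_lip e n n' hn hnn
  have ht' : 2 * ((n' : ℝ) - n) / n = 2 * (((n' : ℝ) - n) / n) := by ring
  by_cases hbig : 2 ^ (e + 1) < n
  · have e1 : w0 i e n = 0 := by
      by_contra h
      have := (hB.2.1 i e n hn h).2.1
      omega
    have e2 : w0 i e n' = 0 := by
      by_contra h
      have := (hB.2.1 i e n' (by omega) h).2.1
      omega
    rw [e1, e2, sub_zero, abs_zero]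
    rw [show 3 * (1 + (e : ℝ)) * ((n' : ℝ) - n) / n = 3 * (1 + e) * (((n' : ℝ) - n) / n) by ring]
    positivity
  · push Not at hbig
    have hlog : Real.log n ≤ 1 + e := by
      have h1 : Real.log n ≤ Real.log ((2 : ℝ) ^ (e + 1)) :=
        Real.log_le_log hn0 (by exact_mod_cast hbig)
      rw [Real.log_pow] at h1
      have h2 : Real.log 2 ≤ 1 := by
        have := Real.log_two_lt_d9; linarith
      have h3 : ((e + 1 : ℕ) : ℝ) * Real.log 2 ≤ ((e + 1 : ℕ) : ℝ) * 1 :=
        mul_le_mul_of_nonneg_left h2 (by positivity)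
      push_cast at h1 h3
      linarith
    have hlog0 : 0 ≤ Real.log n := Real.log_natCast_nonneg n
    have hw : ∀ n : ℕ, w0 i e n = if (i : ℕ) = 4 then tnt e n * Real.log n else tnt e n := by
      intro n
      unfold w0
      rw [if_neg (by omega)]
    rw [hw, hw]
    by_cases h44 : (i : ℕ) = 4
    · rw [if_pos h44, if_pos h44]
      have h2 : Real.log n' - Real.log n ≤ ((n' : ℝ) - n) / n := by
        rw [← Real.log_div hn0'.ne' hn0.ne']
        have := Real.log_le_sub_one_of_pos (show 0 < (n' : ℝ) / n by positivity)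
        calc Real.log (n' / n) ≤ (n' : ℝ) / n - 1 := this
          _ = ((n' : ℝ) - n) / n := by field_simp
      have h3 : Real.log n ≤ Real.log n' := Real.log_le_log hn0 hle
      have h5 : tnt e n * Real.log n - tnt e n' * Real.log n' =
          (tnt e n - tnt e n') * Real.log n + tnt e n' * (Real.log n - Real.log n') := by ring
      rw [h5]
      refine (abs_add_le _ _).trans ?_
      rw [abs_mul, abs_mul, abs_of_nonneg hlog0, abs_of_nonneg (tnt_nonneg e n'),
        abs_of_nonpos (show Real.log n - Real.log n' ≤ 0 by linarith)]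
      have h6 : |tnt e n - tnt e n'| * Real.log n ≤ 2 * (((n' : ℝ) - n) / n) * (1 + e) := by
        rw [← ht']
        exact mul_le_mul ht hlog hlog0 (by rw [ht']; positivity)
      have h7 : tnt e n' * -(Real.log n - Real.log n') ≤ 1 * (((n' : ℝ) - n) / n) :=
        mul_le_mul (tnt_le_one e n') (by linarith) (by linarith) zero_le_one
      have h8 : 3 * (1 + (e : ℝ)) * ((n' : ℝ) - n) / n = 2 * (((n' : ℝ) - n) / n) * (1 + e) +
          (1 + e) * (((n' : ℝ) - n) / n) := by ring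
      rw [h8]
      have h9 : 1 * (((n' : ℝ) - n) / n) ≤ (1 + e) * (((n' : ℝ) - n) / n) :=
        mul_le_mul_of_nonneg_right (by linarith) h4
      linarith
    · rw [if_neg h44, if_neg h44]
      refine ht.trans ?_
      rw [ht', show 3 * (1 + (e : ℝ)) * ((n' : ℝ) - n) / n =
        (3 * (1 + e)) * (((n' : ℝ) - n) / n) by ring]
      exact mul_le_mul_of_nonneg_right (by linarith) h4

lemma w0n_lip (hB : StBkb) (i : Fin 8) (hi : 4 ≤ (i : ℕ)) (e n n' : ℕ) (hn : 1 ≤ n)
    (hnn : n ≤ n') : |w0 i e n / n - w0 i e n' / n'| ≤ 4 * (1 + e) * ((n' : ℝ) - n) / n ^ 2 := by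
  have hn0 : (0 : ℝ) < n := by exact_mod_cast hn
  have hn0' : (0 : ℝ) < n' := by exact_mod_cast (show 0 < n' by omega)
  have hle : (n : ℝ) ≤ n' := by exact_mod_cast hnn
  have he : (0 : ℝ) ≤ e := Nat.cast_nonneg e
  have h1 := w0_lip hB i hi e n n' hn hnn
  have h2 := hB.1 i e n' (by omega)
  have h3 : w0 i e n / n - w0 i e n' / n' = (w0 i e n - w0 i e n') / n +
      w0 i e n' * (((n' : ℝ) - n) / (n * n')) := by
    field_simp
    ring
  rw [h3]
  refine (abs_add_le _ _).trans ?_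
  rw [abs_div, abs_of_pos hn0, abs_mul, abs_of_nonneg (show 0 ≤ ((n' : ℝ) - n) / (n * n') from
    div_nonneg (by linarith) (by positivity))]
  have h4 : |w0 i e n - w0 i e n'| / n ≤ (3 * (1 + e) * ((n' : ℝ) - n) / n) / n :=
    div_le_div_of_nonneg_right h1 hn0.le
  have h5 : |w0 i e n'| * (((n' : ℝ) - n) / (n * n')) ≤ (1 + e) * (((n' : ℝ) - n) / (n * n)) := by
    refine mul_le_mul h2 ?_ (div_nonneg (by linarith) (by positivity)) (by positivity)
    refine div_le_div_of_nonneg_left (by linarith) (by positivity) ?_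
    exact mul_le_mul_of_nonneg_left hle hn0.le
  have h6 : 4 * (1 + (e : ℝ)) * ((n' : ℝ) - n) / n ^ 2 = (3 * (1 + e) * ((n' : ℝ) - n) / n) / n +
      (1 + e) * (((n' : ℝ) - n) / (n * n)) := by
    field_simp
    ring
  rw [h6]
  exact add_le_add h4 h5

/-- the coefficient in the class `r` modulo `q` -/
noncomputable def cf1 (i : Fin 8) (e q r m : ℕ) : ℝ := w0 i e (q * m + r) / ((q * m + r : ℕ) : ℝ)

lemma ch_split (q m r : ℕ) (s : ℝ) (hq : 0 < q) (hm : 0 < m) : ch s (q * m + r) =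
    Complex.exp (((-(s * Real.log q) : ℝ) : ℂ) * Complex.I) * cs s ((r : ℝ) / q) m := by
  have hq0 : (0 : ℝ) < q := by exact_mod_cast hq
  have hm0 : (0 : ℝ) < m := by exact_mod_cast hm
  unfold ch cs
  rw [← Complex.exp_add]
  congr 1
  have h1 : Real.log ((q * m + r : ℕ) : ℝ) = Real.log q + Real.log (m + (r : ℝ) / q) := by
    rw [← Real.log_mul hq0.ne' (by positivity)]
    congr 1
    push_cast
    field_simp
  rw [h1]
  push_cast
  ring

/-- the block polynomial as a sum over residue classes -/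
lemma bk_split (hB : StBkb) {q : ℕ} (hq : 0 < q) (χ : DirichletCharacter ℂ q) (i : Fin 8) (e D : ℕ)
    (s : ℝ) (hD1 : 2 * q * D ≤ 2 ^ e) (hD2 : 2 ^ e < 2 * q * (D + 1)) (hD4 : 4 ≤ D) :
    bk χ i e s = ∑ r ∈ range q, χ (r : ZMod q) *
      Complex.exp (((-(s * Real.log q) : ℝ) : ℂ) * Complex.I) *
      ∑ m ∈ Ioc (D - 1) (8 * (D - 1)), (cf1 i e q r m : ℂ) * cs s ((r : ℝ) / q) m := by
  classical
  set F : ℕ → ℂ := fun n => ((w0 i e n : ℝ) : ℂ) * χ (n : ZMod q) * ch s n / n with hF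
  have hF0 : ∀ n, 1 ≤ n → F n ≠ 0 → 2 ^ e ≤ 2 * n ∧ n ≤ 2 ^ (e + 1) := by
    intro n hn hne
    have : w0 i e n ≠ 0 := by
      intro h0
      apply hne
      simp only [hF, h0]
      simp
    have := hB.2.1 i e n hn this
    exact ⟨this.1, this.2.1⟩
  have hpow : 2 ^ (e + 1) = 2 * 2 ^ e := by rw [pow_succ]; ring
  have hqD : 4 * q ≤ q * D := by
    rw [mul_comm]; exact Nat.mul_le_mul_left q hD4
  have hqD' : q * (8 * (D - 1) + 1) = 8 * (q * D) - 7 * q := by
    obtain ⟨D', rfl⟩ : ∃ D', D = D' + 1 := ⟨D - 1, by omega⟩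
    have : 8 * (q * (D' + 1)) = q * (8 * D' + 1) + 7 * q := by ring
    rw [this]
    simp
  have h2qD : 2 * q * D = 2 * (q * D) := by ring
  have h2qD1 : 2 * q * (D + 1) = 2 * (q * D) + 2 * q := by ring
  have hbk : bk χ i e s = ∑ n ∈ Ico (q * D) (q * (8 * (D - 1) + 1)), F n := by
    have e1 : bk χ i e s = ∑ n ∈ Icc 1 (2 ^ (e + 1)), F n := rfl
    rw [e1, ← Finset.sum_filter_ne_zero (s := Icc 1 (2 ^ (e + 1))),
      ← Finset.sum_filter_ne_zero (s := Ico (q * D) (q * (8 * (D - 1) + 1)))]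
    refine Finset.sum_congr ?_ fun _ _ => rfl
    ext n
    rw [mem_filter, mem_filter, mem_Icc, mem_Ico]
    constructor
    · rintro ⟨⟨h1, h2⟩, h3⟩
      obtain ⟨h4, h5⟩ := hF0 n h1 h3
      refine ⟨⟨?_, ?_⟩, h3⟩
      · omega
      · rw [hqD']; omega
    · rintro ⟨⟨h1, h2⟩, h3⟩
      have h1' : 1 ≤ n := by
        have : 4 * 1 ≤ 4 * q := by omega
        omega
      obtain ⟨h4, h5⟩ := hF0 n h1' h3
      exact ⟨⟨h1', h5⟩, h3⟩
  rw [hbk, sum_blocks F q D (8 * (D - 1) + 1) (by omega), Finset.sum_comm]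
  refine Finset.sum_congr rfl fun r _ => ?_
  have hI : Ico D (8 * (D - 1) + 1) = Ioc (D - 1) (8 * (D - 1)) := by
    ext m
    rw [mem_Ico, mem_Ioc]
    omega
  rw [hI, Finset.mul_sum]
  refine Finset.sum_congr rfl fun m hm => ?_
  have hm1 := (mem_Ioc.1 hm).1
  simp only [hF]
  rw [ch_split q m r s hq (by omega)]
  have h1 : ((q * m + r : ℕ) : ZMod q) = (r : ZMod q) := by
    push_cast
    simp
  rw [h1]
  unfold cf1
  push_cast
  ring

/-- SMW -/
theorem hSMW : StSmd → StBkb → StSmw := by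
  intro hS hB
  obtain ⟨C, hC, hcore⟩ := core hS
  refine ⟨2048 + 256 * C, by positivity, ?_⟩
  intro q hqz χ i e c W hi hW hc
  have hq : 0 < q := Nat.pos_of_ne_zero hqz.out
  have hq0 : (0 : ℝ) < q := by exact_mod_cast hq
  have hW0 : (0 : ℝ) < W := by linarith
  have hc0 : 0 < |c| := by linarith
  have he : (0 : ℝ) ≤ e := Nat.cast_nonneg e
  have hN0 : (0 : ℝ) < 2 ^ e := by positivity
  have hN1 : (1 : ℝ) ≤ 2 ^ e := one_le_pow₀ (by norm_num)
  have hsx : 0 < √W := Real.sqrt_pos.2 hW0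
  have hsy : 0 < √|c| := Real.sqrt_pos.2 hc0
  have hpi : √Real.pi ≤ 2 := by
    rw [show (2 : ℝ) = √4 by
      rw [show (4 : ℝ) = 2 ^ 2 by norm_num]; exact (Real.sqrt_sq (by norm_num)).symm]
    exact Real.sqrt_le_sqrt Real.pi_le_four
  have hgoal : ∫ s : ℝ, ‖bk χ i e s‖ ^ 2 * Real.exp (-((s - c) / W) ^ 2) =
      ∫ s : ℝ, ‖bk χ i e s‖ ^ 2 * gau c W s := rfl
  rw [hgoal]
  have p2 : 0 ≤ √|c| / (√W * 2 ^ e) := by positivity
  have p3 : 0 ≤ √(W / |c|) := Real.sqrt_nonneg _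
  have p1 : 0 ≤ W / 2 ^ e := by positivity
  have hsWc : √(W / |c|) = √W / √|c| := Real.sqrt_div hW0.le _
  by_cases hbig : 2 ^ e < 8 * q
  · -- trivial bound
    have h1 : ∫ s : ℝ, ‖bk χ i e s‖ ^ 2 * gau c W s ≤ ∫ s : ℝ, (4 * (1 + (e : ℝ))) ^ 2 * gau c W s := by
      refine integral_mono_of_nonneg (Filter.Eventually.of_forall fun s => ?_)
        ((gau_int c W hW0).const_mul _) (Filter.Eventually.of_forall fun s => ?_)
      · exact mul_nonneg (by positivity) (gau_pos c W s).le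
      · exact mul_le_mul_of_nonneg_right (pow_le_pow_left₀ (norm_nonneg _)
          (hB.2.2.2 q χ i e s) 2) (gau_pos c W s).le
    refine h1.trans ?_
    rw [integral_const_mul, gau_integral c W hW0]
    have h2 : (2 : ℝ) ^ e ≤ 8 * q := by exact_mod_cast hbig.le
    have h3 : (2 : ℝ) ^ e ≤ 64 * q ^ 2 := by nlinarith
    have h4 : W ≤ 64 * q ^ 2 * (W / 2 ^ e) := by
      rw [mul_div_assoc', le_div_iff₀ hN0]
      nlinarith
    have h5 : (4 * (1 + (e : ℝ))) ^ 2 * (√Real.pi * W) ≤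
        (4 * (1 + (e : ℝ))) ^ 2 * (2 * (64 * q ^ 2 * (W / 2 ^ e))) := by
      refine mul_le_mul_of_nonneg_left ?_ (by positivity)
      exact mul_le_mul hpi h4 hW0.le (by norm_num)
    refine h5.trans ?_
    have h6 : (4 * (1 + (e : ℝ))) ^ 2 * (2 * (64 * q ^ 2 * (W / 2 ^ e))) =
        2048 * q ^ 2 * (1 + e) ^ 2 * (W / 2 ^ e) := by ring
    rw [h6]
    have h7 : W / 2 ^ e ≤ W / 2 ^ e + √|c| / (√W * 2 ^ e) + √(W / |c|) := by linarith
    refine mul_le_mul ?_ h7 p1 (by positivity)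
    have h8 : 0 ≤ C * (q ^ 2 * (1 + (e : ℝ)) ^ 2) := by positivity
    nlinarith
  · push Not at hbig
    set D : ℕ := 2 ^ e / (2 * q) with hDdef
    have hD4 : 4 ≤ D := by
      rw [hDdef, Nat.le_div_iff_mul_le (by omega)]
      omega
    have hD1 : 2 * q * D ≤ 2 ^ e := Nat.mul_div_le _ _
    have hD2 : 2 ^ e < 2 * q * (D + 1) := Nat.lt_mul_div_succ _ (by omega)
    set M : ℕ := D - 1 with hM
    have hM3 : 3 ≤ M := by omega
    have hMM : D = M + 1 := by omega
    have hD1r : 2 * (q : ℝ) * D ≤ 2 ^ e := by exact_mod_cast hD1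
    have hD2r : (2 : ℝ) ^ e < 2 * q * (D + 1) := by exact_mod_cast hD2
    have hMr : (M : ℝ) ≤ D := by exact_mod_cast (show M ≤ D by omega)
    have hM0 : (0 : ℝ) < M := by exact_mod_cast (show 0 < M by omega)
    have h8q : 8 * (q : ℝ) ≤ 2 ^ e := by exact_mod_cast hbig
    set A : ℝ := 16 * (1 + e) / 2 ^ e with hA
    have hA0 : 0 ≤ A := by positivity
    -- size of n = q m + r
    have hn : ∀ m r : ℕ, M < m → 3 * (2 : ℝ) ^ e / 8 ≤ ((q * m + r : ℕ) : ℝ) := by
      intro m r hm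
      have h1 : (D : ℝ) ≤ m := by exact_mod_cast (show D ≤ m by omega)
      have h2 : (q : ℝ) * D ≤ q * m := mul_le_mul_of_nonneg_left h1 hq0.le
      have h3 : (0 : ℝ) ≤ r := Nat.cast_nonneg r
      push_cast
      nlinarith
    have hn1 : ∀ m r : ℕ, M < m → 1 ≤ q * m + r := by
      intro m r hm
      have : 1 * 1 ≤ q * m := Nat.mul_le_mul hq (by omega)
      omega
    have ha1 : ∀ r m : ℕ, M < m → |cf1 i e q r m| ≤ A := by
      intro r m hm
      unfold cf1
      have h0 := hn m r hm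
      have hpos : (0 : ℝ) < ((q * m + r : ℕ) : ℝ) := by
        have : (0 : ℝ) < 3 * (2 : ℝ) ^ e / 8 := by positivity
        linarith
      rw [abs_div, abs_of_pos hpos, div_le_iff₀ hpos, hA]
      refine (hB.1 i e _ (hn1 m r hm)).trans ?_
      have h5 : 16 * (1 + (e : ℝ)) / 2 ^ e * (3 * (2 : ℝ) ^ e / 8) = 6 * (1 + e) := by
        field_simp; norm_num
      have h6 : 16 * (1 + (e : ℝ)) / 2 ^ e * (3 * (2 : ℝ) ^ e / 8) ≤
          16 * (1 + (e : ℝ)) / 2 ^ e * ((q * m + r : ℕ) : ℝ) :=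
        mul_le_mul_of_nonneg_left h0 (by positivity)
      linarith
    have ha2 : ∀ r, r < q → ∀ m : ℕ, 8 * M < m → cf1 i e q r m = 0 := by
      intro r hr m hm
      unfold cf1
      have : w0 i e (q * m + r) = 0 := by
        by_contra hne
        have h1 := (hB.2.1 i e _ (hn1 m r (by omega)) hne).2.1
        have hpow : 2 ^ (e + 1) = 2 * 2 ^ e := by rw [pow_succ]; ring
        have h2 : q * (8 * M + 1) ≤ q * m := Nat.mul_le_mul_left q (by omega)
        have h3 : q * (8 * M + 1) = 8 * (q * M) + q := by ring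
        have h4 : 2 * q * (D + 1) = 2 * (q * M) + 4 * q := by rw [hMM]; ring
        have h5 : 2 * q * D = 2 * (q * M) + 2 * q := by rw [hMM]; ring
        have h6 : 3 * q ≤ q * M := by rw [mul_comm]; exact Nat.mul_le_mul_left q hM3
        omega
      rw [this, zero_div]
    have ha3 : ∀ r m : ℕ, M < m → |cf1 i e q r (m + 1) - cf1 i e q r m| ≤ A / M := by
      intro r m hm
      unfold cf1
      have h0 := hn m r hm
      have hpos : (0 : ℝ) < 3 * (2 : ℝ) ^ e / 8 := by positivity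
      have hle : q * m + r ≤ q * (m + 1) + r := by
        have : q * m ≤ q * (m + 1) := Nat.mul_le_mul_left q (by omega)
        omega
      rw [abs_sub_comm]
      refine (w0n_lip hB i hi e _ _ (hn1 m r hm) hle).trans ?_
      have h1 : ((q * (m + 1) + r : ℕ) : ℝ) - ((q * m + r : ℕ) : ℝ) = q := by push_cast; ring
      rw [h1]
      have h2 : 4 * (1 + (e : ℝ)) * q / ((q * m + r : ℕ) : ℝ) ^ 2 ≤
          4 * (1 + (e : ℝ)) * q / (3 * (2 : ℝ) ^ e / 8) ^ 2 := by
        refine div_le_div_of_nonneg_left (by positivity) (by positivity) ?_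
        exact pow_le_pow_left₀ hpos.le h0 2
      refine h2.trans ?_
      rw [div_le_div_iff₀ (by positivity) hM0, hA]
      have h3 : 16 * (1 + (e : ℝ)) / 2 ^ e * (3 * (2 : ℝ) ^ e / 8) ^ 2 =
          9 / 4 * (1 + e) * 2 ^ e := by field_simp; norm_num
      rw [h3]
      have h4 : (q : ℝ) * M ≤ 2 ^ e / 2 := by nlinarith
      have h5 : 4 * (1 + (e : ℝ)) * q * M = 4 * (1 + e) * (q * M) := by ring
      rw [h5]
      have h6 : 4 * (1 + (e : ℝ)) * (q * M) ≤ 4 * (1 + e) * (2 ^ e / 2) :=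
        mul_le_mul_of_nonneg_left h4 (by positivity)
      have h7 : 0 ≤ (1 + (e : ℝ)) * 2 ^ e := by positivity
      nlinarith
    -- the class sums
    set T : ℝ := C * A ^ 2 * (W * M + √|c| * M / √W + (M : ℝ) ^ 2 * (√W / √|c|)) with hT
    have hclass : ∀ r ∈ range q, ∫ s, ‖∑ m ∈ Ioc M (8 * M), (cf1 i e q r m : ℂ) *
        cs s ((r : ℝ) / q) m‖ ^ 2 * gau c W s ≤ T := by
      intro r hr
      have hr' : (r : ℝ) ≤ q := by exact_mod_cast (mem_range.1 hr).le
      exact hcore M (cf1 i e q r) A ((r : ℝ) / q) c W (by omega) hA0 (by positivity)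
        ((div_le_one hq0).2 hr') hW hc (ha1 r) (ha2 r (mem_range.1 hr)) (ha3 r)
    have hint : ∀ r ∈ range q, Integrable fun s => ‖∑ m ∈ Ioc M (8 * M), (cf1 i e q r m : ℂ) *
        cs s ((r : ℝ) / q) m‖ ^ 2 * gau c W s :=
      fun r _ => sumS_int _ _ _ _ _ hW0
    have hpt : ∀ s : ℝ, ‖bk χ i e s‖ ^ 2 * gau c W s ≤ q * ∑ r ∈ range q,
        ‖∑ m ∈ Ioc M (8 * M), (cf1 i e q r m : ℂ) * cs s ((r : ℝ) / q) m‖ ^ 2 * gau c W s := by
      intro s
      rw [← Finset.sum_mul, ← mul_assoc]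
      refine mul_le_mul_of_nonneg_right ?_ (gau_pos c W s).le
      rw [bk_split hB hq χ i e D s hD1 hD2 hD4]
      have h1 : ‖∑ r ∈ range q, χ (r : ZMod q) *
          Complex.exp (((-(s * Real.log q) : ℝ) : ℂ) * Complex.I) *
          ∑ m ∈ Ioc (D - 1) (8 * (D - 1)), (cf1 i e q r m : ℂ) * cs s ((r : ℝ) / q) m‖ ≤
          ∑ r ∈ range q, ‖∑ m ∈ Ioc M (8 * M), (cf1 i e q r m : ℂ) *
            cs s ((r : ℝ) / q) m‖ := by
        refine (norm_sum_le _ _).trans (Finset.sum_le_sum fun r _ => ?_)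
        rw [norm_mul, norm_mul, Complex.norm_exp_ofReal_mul_I, mul_one]
        exact mul_le_of_le_one_left (norm_nonneg _) (DirichletCharacter.norm_le_one χ _)
      refine (pow_le_pow_left₀ (norm_nonneg _) h1 2).trans ?_
      have h2 := sq_sum_le_card_mul_sum_sq (s := range q) (f := fun r =>
        ‖∑ m ∈ Ioc M (8 * M), (cf1 i e q r m : ℂ) * cs s ((r : ℝ) / q) m‖)
      rwa [card_range] at h2
    have h1 : ∫ s : ℝ, ‖bk χ i e s‖ ^ 2 * gau c W s ≤ q * (q * T) := by
      refine (integral_mono_of_nonneg (Filter.Eventually.of_forall fun s => ?_)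
        ((integrable_finset_sum _ hint).const_mul (q : ℝ))
        (Filter.Eventually.of_forall hpt)).trans ?_
      · exact mul_nonneg (by positivity) (gau_pos c W s).le
      · rw [integral_const_mul, integral_finset_sum _ hint]
        refine mul_le_mul_of_nonneg_left ?_ hq0.le
        refine (Finset.sum_le_sum hclass).trans ?_
        rw [Finset.sum_const, card_range, nsmul_eq_mul]
    refine h1.trans ?_
    have hMN : (M : ℝ) ≤ 2 ^ e := by
      have hq1 : (1 : ℝ) ≤ q := by exact_mod_cast hq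
      nlinarith
    have h2 : A ^ 2 * (W * M + √|c| * M / √W + (M : ℝ) ^ 2 * (√W / √|c|)) ≤
        256 * (1 + (e : ℝ)) ^ 2 * (W / 2 ^ e + √|c| / (√W * 2 ^ e) + √(W / |c|)) := by
      rw [hsWc]
      have e1 : A ^ 2 * (W * M + √|c| * M / √W + (M : ℝ) ^ 2 * (√W / √|c|)) ≤
          A ^ 2 * (W * 2 ^ e + √|c| * 2 ^ e / √W + ((2 : ℝ) ^ e) ^ 2 * (√W / √|c|)) := by
        refine mul_le_mul_of_nonneg_left ?_ (by positivity)
        refine add_le_add (add_le_add ?_ ?_) ?_
        · exact mul_le_mul_of_nonneg_left hMN hW0.le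
        · exact div_le_div_of_nonneg_right (mul_le_mul_of_nonneg_left hMN hsy.le) hsx.le
        · exact mul_le_mul_of_nonneg_right (pow_le_pow_left₀ hM0.le hMN 2) (by positivity)
      refine e1.trans (le_of_eq ?_)
      rw [hA]
      field_simp
      ring
    have h3 : (q : ℝ) * (q * T) = C * q ^ 2 *
        (A ^ 2 * (W * M + √|c| * M / √W + (M : ℝ) ^ 2 * (√W / √|c|))) := by
      rw [hT]; ring
    rw [h3]
    have h4 : C * (q : ℝ) ^ 2 * (A ^ 2 * (W * M + √|c| * M / √W + (M : ℝ) ^ 2 * (√W / √|c|))) ≤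
        C * (q : ℝ) ^ 2 * (256 * (1 + (e : ℝ)) ^ 2 *
          (W / 2 ^ e + √|c| / (√W * 2 ^ e) + √(W / |c|))) :=
      mul_le_mul_of_nonneg_left h2 (by positivity)
    refine h4.trans ?_
    have h5 : 0 ≤ (q : ℝ) ^ 2 * (1 + (e : ℝ)) ^ 2 *
        (W / 2 ^ e + √|c| / (√W * 2 ^ e) + √(W / |c|)) := by positivity
    nlinarith

end Pool.Agent.Helper81.GW
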