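import Pool.Agent.Helper63.GW.StA
import Pool.Agent.Helper64.GK.Parts

/-!
# Project GW, module SMW, part a: Gaussian integrals, diagonals, variation, sums over `k`
-/

set_option autoImplicit false

namespace Pool.Agent.Helper81.GW

open Finset ArithmeticFunction MeasureTheory
open Pool.Agent.Helper2.MR (ch)
open Pool.Agent.Helper23.GK
open Pool.Agent.Helper63.GW
open Pool.Agent.Helper64.GK

/-! ### Gaussian integrals -/

/-- the Gaussian window -/
noncomputable def gau (c W s : ℝ) : ℝ := Real.exp (-((s - c) / W) ^ 2)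

lemma gau_pos (c W s : ℝ) : 0 < gau c W s := Real.exp_pos _

lemma gau_cont (c W : ℝ) : Continuous (gau c W) := by
  unfold gau; fun_prop

lemma gau_int (c W : ℝ) (hW : 0 < W) : Integrable (gau c W) := by
  have h := integrable_exp_neg_mul_sq (b := 1 / W ^ 2) (by positivity)
  have h2 := h.comp_sub_right c
  refine h2.congr (Filter.Eventually.of_forall fun s => ?_)
  unfold gau
  simp only
  congr 1
  field_simp

lemma gau_integral (c W : ℝ) (hW : 0 < W) : ∫ s, gau c W s = √Real.pi * W := by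
  have h1 : (fun s => gau c W s) = fun s => (fun x : ℝ => Real.exp (-(1 / W ^ 2) * x ^ 2)) (s - c) := by
    funext s
    unfold gau
    simp only
    congr 1
    field_simp
  rw [h1, integral_sub_right_eq_self (fun x : ℝ => Real.exp (-(1 / W ^ 2) * x ^ 2)) c,
    integral_gaussian]
  rw [show Real.pi / (1 / W ^ 2) = Real.pi * W ^ 2 by field_simp, Real.sqrt_mul Real.pi_pos.le,
    Real.sqrt_sq hW.le]

lemma gau_fourier (c W y : ℝ) (hW : 0 < W) :
    ∫ s : ℝ, Complex.exp (((-(s * y) : ℝ) : ℂ) * Complex.I) * ((gau c W s : ℝ) : ℂ) =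
      ((√Real.pi * W : ℝ) : ℂ) * Complex.exp (((-(c * y) : ℝ) : ℂ) * Complex.I) *
        ((Real.exp (-(W ^ 2 * y ^ 2 / 4)) : ℝ) : ℂ) := by
  have h1 : (fun s : ℝ => Complex.exp (((-(s * y) : ℝ) : ℂ) * Complex.I) * ((gau c W s : ℝ) : ℂ)) =
      fun s => (fun x : ℝ => Complex.exp (((-(c * y) : ℝ) : ℂ) * Complex.I) *
        (Complex.exp (Complex.I * ((-y : ℝ) : ℂ) * x) *
          Complex.exp (-((1 / W ^ 2 : ℝ) : ℂ) * x ^ 2))) (s - c) := by
    funext s
    unfold gau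
    simp only
    rw [Complex.ofReal_exp, ← Complex.exp_add, ← Complex.exp_add, ← Complex.exp_add]
    congr 1
    push_cast
    field_simp
    ring
  rw [h1, integral_sub_right_eq_self (fun x : ℝ => Complex.exp (((-(c * y) : ℝ) : ℂ) * Complex.I) *
        (Complex.exp (Complex.I * ((-y : ℝ) : ℂ) * x) *
          Complex.exp (-((1 / W ^ 2 : ℝ) : ℂ) * x ^ 2))) c]
  rw [integral_const_mul]
  rw [fourierIntegral_gaussian (b := ((1 / W ^ 2 : ℝ) : ℂ)) (by
    rw [Complex.ofReal_re]; positivity) ((-y : ℝ) : ℂ)]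
  have h2 : (Real.pi / ((1 / W ^ 2 : ℝ) : ℂ)) ^ (1 / 2 : ℂ) = ((√Real.pi * W : ℝ) : ℂ) := by
    rw [show (Real.pi / ((1 / W ^ 2 : ℝ) : ℂ)) = ((Real.pi * W ^ 2 : ℝ) : ℂ) by
      push_cast; field_simp]
    rw [show (1 / 2 : ℂ) = ((1 / 2 : ℝ) : ℂ) by push_cast; rfl,
      ← Complex.ofReal_cpow (by positivity), ← Real.sqrt_eq_rpow, Real.sqrt_mul Real.pi_pos.le,
      Real.sqrt_sq hW.le]
  rw [h2, Complex.ofReal_exp]
  have h3 : -((-y : ℝ) : ℂ) ^ 2 / (4 * ((1 / W ^ 2 : ℝ) : ℂ)) = ((-(W ^ 2 * y ^ 2 / 4) : ℝ) : ℂ) := by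
    push_cast
    field_simp
  rw [h3]
  ring

lemma cs_norm (t θ : ℝ) (n : ℕ) : ‖cs t θ n‖ = 1 := by
  unfold cs
  rw [Complex.norm_exp_ofReal_mul_I]

lemma cs_cont (θ : ℝ) (n : ℕ) : Continuous fun t => cs t θ n := by
  unfold cs; fun_prop

lemma cs_conj (t θ : ℝ) (m m' : ℕ) : cs t θ m * (starRingEnd ℂ) (cs t θ m') =
    Complex.exp (((-(t * (Real.log (m + θ) - Real.log (m' + θ))) : ℝ) : ℂ) * Complex.I) := by
  unfold cs
  rw [← Complex.exp_conj, ← Complex.exp_add]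
  congr 1
  rw [map_mul, Complex.conj_ofReal, Complex.conj_I]
  push_cast
  ring

/-- the coefficient of the quadratic form -/
noncomputable def Fq (a : ℕ → ℝ) (θ c W : ℝ) (m m' : ℕ) : ℂ :=
  ((a m * a m' * Real.exp (-(W ^ 2 * (Real.log (m + θ) - Real.log (m' + θ)) ^ 2 / 4)) : ℝ) : ℂ) *
    (cs c θ m * (starRingEnd ℂ) (cs c θ m'))

lemma sumS_cont (I : Finset ℕ) (a : ℕ → ℝ) (θ : ℝ) :
    Continuous fun s => ∑ m ∈ I, (a m : ℂ) * cs s θ m := by
  refine continuous_finset_sum _ fun m _ => ?_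
  exact continuous_const.mul (cs_cont θ m)

lemma sumS_int (I : Finset ℕ) (a : ℕ → ℝ) (θ c W : ℝ) (hW : 0 < W) :
    Integrable fun s => ‖∑ m ∈ I, (a m : ℂ) * cs s θ m‖ ^ 2 * gau c W s := by
  have h := (gau_int c W hW).const_mul ((∑ m ∈ I, |a m|) ^ 2)
  refine h.mono' ?_ (Filter.Eventually.of_forall fun s => ?_)
  · exact (((sumS_cont I a θ).norm.pow 2).mul (gau_cont c W)).aestronglyMeasurable
  · rw [Real.norm_eq_abs, abs_of_nonneg (mul_nonneg (by positivity) (gau_pos c W s).le)]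
    refine mul_le_mul_of_nonneg_right ?_ (gau_pos c W s).le
    refine pow_le_pow_left₀ (norm_nonneg _) ?_ 2
    refine (norm_sum_le _ _).trans (Finset.sum_le_sum fun m _ => ?_)
    rw [norm_mul, cs_norm, mul_one, Complex.norm_real, Real.norm_eq_abs]

theorem quad (I : Finset ℕ) (a : ℕ → ℝ) (θ c W : ℝ) (hW : 0 < W) :
    ∫ s, ‖∑ m ∈ I, (a m : ℂ) * cs s θ m‖ ^ 2 * gau c W s ≤
      √Real.pi * W * ‖∑ m ∈ I, ∑ m' ∈ I, Fq a θ c W m m'‖ := by
  have key : ((∫ s, ‖∑ m ∈ I, (a m : ℂ) * cs s θ m‖ ^ 2 * gau c W s : ℝ) : ℂ) =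
      ((√Real.pi * W : ℝ) : ℂ) * ∑ m ∈ I, ∑ m' ∈ I, Fq a θ c W m m' := by
    rw [← integral_complex_ofReal]
    have h1 : ∀ s : ℝ, ((‖∑ m ∈ I, (a m : ℂ) * cs s θ m‖ ^ 2 * gau c W s : ℝ) : ℂ) =
        ∑ m ∈ I, ∑ m' ∈ I, ((a m * a m' : ℝ) : ℂ) *
          (Complex.exp (((-(s * (Real.log (m + θ) - Real.log (m' + θ))) : ℝ) : ℂ) * Complex.I) *
            ((gau c W s : ℝ) : ℂ)) := by
      intro s
      rw [Complex.ofReal_mul, Complex.ofReal_pow, ← Complex.mul_conj', map_sum, Finset.sum_mul_sum,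
        Finset.sum_mul]
      refine Finset.sum_congr rfl fun m _ => ?_
      rw [Finset.sum_mul]
      refine Finset.sum_congr rfl fun m' _ => ?_
      rw [map_mul, Complex.conj_ofReal, ← cs_conj]
      push_cast
      ring
    have hint : ∀ m m' : ℕ, Integrable fun s : ℝ => ((a m * a m' : ℝ) : ℂ) *
          (Complex.exp (((-(s * (Real.log (m + θ) - Real.log (m' + θ))) : ℝ) : ℂ) * Complex.I) *
            ((gau c W s : ℝ) : ℂ)) := by
      intro m m'
      refine Integrable.const_mul ?_ _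
      refine (gau_int c W hW).mono' ?_ (Filter.Eventually.of_forall fun s => ?_)
      · refine Continuous.aestronglyMeasurable ?_
        refine Continuous.mul (by fun_prop) ?_
        exact Complex.continuous_ofReal.comp (gau_cont c W)
      · rw [norm_mul, Complex.norm_exp_ofReal_mul_I, one_mul, Complex.norm_real,
          Real.norm_eq_abs, abs_of_pos (gau_pos c W s)]
    rw [integral_congr_ae (Filter.Eventually.of_forall h1)]
    rw [integral_finset_sum _ (fun m _ => integrable_finset_sum _ fun m' _ => hint m m')]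
    rw [Finset.mul_sum]
    refine Finset.sum_congr rfl fun m _ => ?_
    rw [integral_finset_sum _ (fun m' _ => hint m m'), Finset.mul_sum]
    refine Finset.sum_congr rfl fun m' _ => ?_
    rw [integral_const_mul, gau_fourier c W _ hW, Fq, cs_conj]
    push_cast
    ring
  have h2 := congrArg norm key
  rw [Complex.norm_real, Real.norm_eq_abs, norm_mul, Complex.norm_real, Real.norm_eq_abs,
    abs_of_nonneg (show (0:ℝ) ≤ √Real.pi * W by positivity)] at h2
  rw [← h2]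
  exact le_abs_self _

/-! ### diagonals -/

theorem diagonals (F : ℕ → ℕ → ℂ) (M K : ℕ) (hF : ∀ m m', F m' m = (starRingEnd ℂ) (F m m'))
    (h0 : ∀ m m', M + K < m' → F m' m = 0) :
    ‖∑ m ∈ Ioc M (M + K), ∑ m' ∈ Ioc M (M + K), F m m'‖ ≤
      ∑ m ∈ Ioc M (M + K), ‖F m m‖ +
        2 * ∑ k ∈ Ioc 0 K, ‖∑ m ∈ Ioc M (M + K), F (m + k) m‖ := by
  set I := Ioc M (M + K) with hI
  have hup : ∀ m ∈ I, ∑ m' ∈ I.filter (fun m' => m < m'), F m' m =
      ∑ k ∈ Ioc 0 K, F (m + k) m := by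
    intro m hm
    obtain ⟨hm1, hm2⟩ := mem_Ioc.1 hm
    have h1 : Ioc m (m + K) = (Ioc 0 K).map (addLeftEmbedding m) := by
      rw [Finset.map_add_left_Ioc, add_zero]
    have h2 : ∑ k ∈ Ioc 0 K, F (m + k) m = ∑ m' ∈ Ioc m (m + K), F m' m := by
      rw [h1, Finset.sum_map]
      rfl
    rw [h2]
    refine Finset.sum_subset ?_ ?_
    · intro m' hm'
      obtain ⟨h3, h4⟩ := mem_filter.1 hm'
      obtain ⟨h5, h6⟩ := mem_Ioc.1 h3
      exact mem_Ioc.2 ⟨h4, by omega⟩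
    · intro m' hm' hn
      obtain ⟨h3, h4⟩ := mem_Ioc.1 hm'
      refine h0 _ _ ?_
      by_contra h5
      exact hn (mem_filter.2 ⟨mem_Ioc.2 ⟨by omega, by omega⟩, h3⟩)
  have hsplit : ∑ m ∈ I, ∑ m' ∈ I, F m m' = ∑ m ∈ I, F m m +
      (∑ m ∈ I, ∑ m' ∈ I.filter (fun m' => m < m'), F m' m +
        ∑ m ∈ I, ∑ m' ∈ I.filter (fun m' => m < m'), F m m') := by
    have h1 : ∑ m ∈ I, ∑ m' ∈ I.filter (fun m' => m < m'), F m' m =
        ∑ m ∈ I, ∑ m' ∈ I.filter (fun m' => m' < m), F m m' := by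
      simp only [Finset.sum_filter]
      rw [Finset.sum_comm]
    rw [h1, ← Finset.sum_add_distrib, ← Finset.sum_add_distrib]
    refine Finset.sum_congr rfl fun m hm => ?_
    have h2 : ∀ m' ∈ I, F m m' = (if m' = m then F m m' else 0) +
        ((if m' < m then F m m' else 0) + (if m < m' then F m m' else 0)) := by
      intro m' _
      rcases lt_trichotomy m' m with h | h | h
      · simp [h, h.ne, not_lt.2 h.le]
      · simp [h]
      · simp [h, h.ne', not_lt.2 h.le]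
    rw [Finset.sum_congr rfl h2, Finset.sum_add_distrib, Finset.sum_add_distrib,
      Finset.sum_filter, Finset.sum_filter, Finset.sum_ite_eq' I m (fun m' => F m m'), if_pos hm]
  have hU : ∑ m ∈ I, ∑ m' ∈ I.filter (fun m' => m < m'), F m' m =
      ∑ k ∈ Ioc 0 K, ∑ m ∈ I, F (m + k) m := by
    rw [Finset.sum_congr rfl hup, Finset.sum_comm]
  have hL : ∑ m ∈ I, ∑ m' ∈ I.filter (fun m' => m < m'), F m m' =
      (starRingEnd ℂ) (∑ k ∈ Ioc 0 K, ∑ m ∈ I, F (m + k) m) := by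
    rw [← hU, map_sum]
    refine Finset.sum_congr rfl fun m _ => ?_
    rw [map_sum]
    refine Finset.sum_congr rfl fun m' _ => ?_
    exact hF m' m
  rw [hsplit, hU, hL]
  refine (norm_add_le _ _).trans ?_
  refine add_le_add (norm_sum_le _ _) ?_
  refine (norm_add_le _ _).trans ?_
  rw [Complex.norm_conj, ← two_mul]
  exact mul_le_mul_of_nonneg_left (norm_sum_le _ _) (by norm_num)

/-! ### bounded variation -/

theorem abel_bv (c : ℕ → ℂ) (g : ℕ → ℝ) (M N : ℕ) (D V V' : ℝ) (hD : 0 ≤ D) (hMN : M < N)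
    (hS : ∀ n, M ≤ n → n ≤ N → ‖∑ m ∈ Ioc M n, c m‖ ≤ D)
    (h1 : |g N| ≤ V) (h2 : ∑ n ∈ Ico (M + 1) N, |g (n + 1) - g n| ≤ V') :
    ‖∑ n ∈ Ioc M N, c n * (g n : ℂ)‖ ≤ D * (V + V') := by
  rw [abel_id c g M N hMN.le, Finset.sum_eq_sum_Ico_succ_bot hMN]
  simp only [Finset.Ioc_self, Finset.sum_empty, zero_mul, zero_add]
  refine (norm_sub_le _ _).trans ?_
  rw [mul_add]
  refine add_le_add ?_ ?_
  · rw [norm_mul, Complex.norm_real, Real.norm_eq_abs]
    exact mul_le_mul (hS N hMN.le le_rfl) h1 (abs_nonneg _) hD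
  · refine (norm_sum_le _ _).trans ?_
    refine le_trans ?_ (mul_le_mul_of_nonneg_left h2 hD)
    rw [Finset.mul_sum]
    refine Finset.sum_le_sum fun n hn => ?_
    obtain ⟨hn1, hn2⟩ := mem_Ico.1 hn
    rw [norm_mul, Complex.norm_real, Real.norm_eq_abs]
    exact mul_le_mul_of_nonneg_right (hS n (by omega) hn2.le) (abs_nonneg _)

/-! ### sums over `k` -/

lemma exp_bound (x : ℝ) (hx : 0 ≤ x) : Real.exp (-x ^ 2) ≤ 2 / (1 + x) ^ 2 := by
  rw [Real.exp_neg, ← one_div, div_le_div_iff₀ (Real.exp_pos _) (by positivity)]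
  have h1 := Real.add_one_le_exp (x ^ 2)
  nlinarith [sq_nonneg (x - 1)]

lemma sumk1 (δ : ℝ) (hδ : 0 < δ) (K : ℕ) :
    ∑ k ∈ Ioc 0 K, 1 / √(k : ℝ) * Real.exp (-(δ * k) ^ 2) ≤ 4 / √δ := by
  have key : ∀ K : ℕ, ∑ k ∈ Ioc 0 K, 1 / √(k : ℝ) * Real.exp (-(δ * k) ^ 2) ≤
      4 * √((K : ℝ) / (1 + δ * K)) := by
    intro K
    induction K with
    | zero => simp
    | succ K ih =>
      rw [Finset.sum_Ioc_succ_top (Nat.zero_le K)]
      refine (add_le_add_left ih _).trans ?_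
      set u : ℝ := (K : ℝ) / (1 + δ * K) with hu
      set v : ℝ := ((K + 1 : ℕ) : ℝ) / (1 + δ * ((K + 1 : ℕ) : ℝ)) with hv
      have hk0 : (0 : ℝ) ≤ K := Nat.cast_nonneg K
      have hd : 0 < 1 + δ * K := by positivity
      have hd' : 0 < 1 + δ * ((K + 1 : ℕ) : ℝ) := by positivity
      have hu0 : 0 ≤ u := by positivity
      have hv0 : 0 < v := by rw [hv]; positivity
      have hvu : v - u = 1 / ((1 + δ * K) * (1 + δ * ((K + 1 : ℕ) : ℝ))) := by
        rw [hu, hv]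
        field_simp
        push_cast
        ring
      have hvk : v ≤ ((K + 1 : ℕ) : ℝ) := by
        rw [hv]
        refine div_le_self (by positivity) ?_
        have : 0 ≤ δ * ((K + 1 : ℕ) : ℝ) := by positivity
        linarith
      have hsk : √v ≤ √((K + 1 : ℕ) : ℝ) := Real.sqrt_le_sqrt hvk
      have huv : u ≤ v := by
        have : 0 ≤ v - u := by rw [hvu]; positivity
        linarith
      have hsu : √u ≤ √v := Real.sqrt_le_sqrt huv
      have hsq : (√v - √u) * (√v + √u) = v - u := by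
        have h1 := Real.mul_self_sqrt hv0.le
        have h2 := Real.mul_self_sqrt hu0
        nlinarith
      have hskp : 0 < √((K + 1 : ℕ) : ℝ) := Real.sqrt_pos.2 (by positivity)
      have h3 : v - u ≤ (√v - √u) * (2 * √((K + 1 : ℕ) : ℝ)) := by
        rw [← hsq]
        refine mul_le_mul_of_nonneg_left ?_ (by linarith)
        linarith
      have h4 : 1 / (1 + δ * ((K + 1 : ℕ) : ℝ)) ^ 2 ≤ v - u := by
        rw [hvu]
        refine one_div_le_one_div_of_le (by positivity) ?_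
        rw [sq]
        refine mul_le_mul_of_nonneg_right ?_ hd'.le
        push_cast
        nlinarith
      have h5 := exp_bound (δ * ((K + 1 : ℕ) : ℝ)) (by positivity)
      have h6 : 1 / √((K + 1 : ℕ) : ℝ) * Real.exp (-(δ * ((K + 1 : ℕ) : ℝ)) ^ 2) ≤
          4 * (√v - √u) := by
        rw [one_div, inv_mul_le_iff₀ hskp]
        refine h5.trans ?_
        have : 2 / (1 + δ * ((K + 1 : ℕ) : ℝ)) ^ 2 =
          2 * (1 / (1 + δ * ((K + 1 : ℕ) : ℝ)) ^ 2) := by ring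
        rw [this]
        nlinarith
      linarith
  refine (key K).trans ?_
  rw [show (4 : ℝ) / √δ = 4 * √(1 / δ) by rw [Real.sqrt_div zero_le_one, Real.sqrt_one]; ring]
  refine mul_le_mul_of_nonneg_left (Real.sqrt_le_sqrt ?_) (by norm_num)
  rw [div_le_div_iff₀ (by positivity) hδ]
  nlinarith

lemma sumk2 (δ : ℝ) (hδ : 0 < δ) (K : ℕ) :
    ∑ k ∈ Ioc 0 K, √(k : ℝ) * Real.exp (-(δ * k) ^ 2) ≤ 16 / (δ * √δ) := by
  have h1 : ∀ k ∈ Ioc 0 K, √(k : ℝ) * Real.exp (-(δ * k) ^ 2) ≤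
      1 / (δ / 2) * (1 / √(k : ℝ) * Real.exp (-(δ / 2 * k) ^ 2)) := by
    intro k hk
    have hk0 : (0 : ℝ) < k := by exact_mod_cast (mem_Ioc.1 hk).1
    have hs : 0 < √(k : ℝ) := Real.sqrt_pos.2 hk0
    have h2 : Real.exp (-(δ * k) ^ 2) = Real.exp (-(3 * (δ / 2 * k) ^ 2)) *
        Real.exp (-(δ / 2 * k) ^ 2) := by
      rw [← Real.exp_add]; congr 1; ring
    have h3 : (δ / 2 * k) * Real.exp (-(3 * (δ / 2 * k) ^ 2)) ≤ 1 := by
      rw [Real.exp_neg, ← div_eq_mul_inv, div_le_one (Real.exp_pos _)]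
      have h4 := Real.add_one_le_exp (3 * (δ / 2 * k) ^ 2)
      nlinarith [sq_nonneg (δ / 2 * k - 1)]
    have h5 : (k : ℝ) = √k * √k := (Real.mul_self_sqrt hk0.le).symm
    rw [h2]
    have h6 : 1 / (δ / 2) * (1 / √(k : ℝ) * Real.exp (-(δ / 2 * k) ^ 2)) -
        √(k : ℝ) * (Real.exp (-(3 * (δ / 2 * k) ^ 2)) * Real.exp (-(δ / 2 * k) ^ 2)) =
        (1 / (δ / 2) * (1 / √(k : ℝ)) * Real.exp (-(δ / 2 * k) ^ 2)) *
          (1 - (δ / 2) * (√k * √k) * Real.exp (-(3 * (δ / 2 * k) ^ 2))) := by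
      field_simp
    rw [← h5] at h6
    have h7 : 0 ≤ (1 / (δ / 2) * (1 / √(k : ℝ)) * Real.exp (-(δ / 2 * k) ^ 2)) *
          (1 - (δ / 2) * k * Real.exp (-(3 * (δ / 2 * k) ^ 2))) :=
      mul_nonneg (by positivity) (by linarith)
    linarith
  refine (Finset.sum_le_sum h1).trans ?_
  rw [← Finset.mul_sum]
  have h2 := sumk1 (δ / 2) (by positivity) K
  have h3 : 1 / (δ / 2) * ∑ k ∈ Ioc 0 K, 1 / √(k : ℝ) * Real.exp (-(δ / 2 * k) ^ 2) ≤
      1 / (δ / 2) * (4 / √(δ / 2)) := mul_le_mul_of_nonneg_left h2 (by positivity)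
  refine h3.trans ?_
  have h4 : √δ / 2 ≤ √(δ / 2) := by
    rw [div_le_iff₀ (by norm_num), ← Real.sqrt_sq (show (0:ℝ) ≤ 2 by norm_num),
      ← Real.sqrt_mul (by positivity)]
    refine Real.sqrt_le_sqrt ?_
    rw [Real.sqrt_sq (show (0:ℝ) ≤ 2 by norm_num)]
    linarith
  have h5 : 0 < √δ := Real.sqrt_pos.2 hδ
  have h6 : 4 / √(δ / 2) ≤ 4 / (√δ / 2) :=
    div_le_div_of_nonneg_left (by norm_num) (by positivity) h4
  refine (mul_le_mul_of_nonneg_left h6 (by positivity)).trans (le_of_eq ?_)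
  field_simp
  norm_num

end Pool.Agent.Helper81.GW
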