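import Pool.Agent.Helper81.GW.SMWa

/-!
# Project GW, module SMW, part b: one residue class
-/

set_option autoImplicit false

namespace Pool.Agent.Helper81.GW

open Finset ArithmeticFunction MeasureTheory
open Pool.Agent.Helper2.MR (ch)
open Pool.Agent.Helper23.GK
open Pool.Agent.Helper63.GW
open Pool.Agent.Helper64.GK

lemma Fq_conj (a : ℕ → ℝ) (θ c W : ℝ) (m m' : ℕ) :
    Fq a θ c W m' m = (starRingEnd ℂ) (Fq a θ c W m m') := by
  unfold Fq
  rw [map_mul, Complex.conj_ofReal, map_mul, Complex.conj_conj]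
  rw [mul_comm (cs c θ m')]
  congr 3
  · ring
  · congr 3
    ring

lemma Fq_diag (a : ℕ → ℝ) (θ c W : ℝ) (m : ℕ) : ‖Fq a θ c W m m‖ = |a m| ^ 2 := by
  unfold Fq
  rw [sub_self, norm_mul, norm_mul, RCLike.norm_conj, cs_norm, mul_one, mul_one, Complex.norm_real,
    Real.norm_eq_abs]
  simp [abs_mul, sq]

/-- one off-diagonal -/
lemma offdiag (C0 : ℝ) (hC0 : 0 < C0) (M k : ℕ) (a : ℕ → ℝ) (A θ c W : ℝ) (hM : 1 ≤ M)
    (hA : 0 ≤ A) (hθ : 0 ≤ θ) (hθ1 : θ ≤ 1) (hW : 1 ≤ W) (hc : 1 ≤ |c|) (hk : 1 ≤ k)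
    (hk2 : k ≤ 7 * M)
    (hsmd : ∀ n, M ≤ n → n ≤ 8 * M → ‖∑ m ∈ Ioc M n, cs c θ (m + k) *
      (starRingEnd ℂ) (cs c θ m)‖ ≤ C0 * (√(|c| * k / M) + √((M : ℝ) ^ 3 / (|c| * k))))
    (h1 : ∀ m, M < m → |a m| ≤ A) (h3 : ∀ m, M < m → |a (m + 1) - a m| ≤ A / M) :
    ‖∑ m ∈ Ioc M (8 * M), Fq a θ c W (m + k) m‖ ≤
      30 * A ^ 2 * C0 * ((√(|c| * k / M) + √((M : ℝ) ^ 3 / (|c| * k))) *
        Real.exp (-(W / (36 * M) * k) ^ 2)) := by
  have hM0 : (0 : ℝ) < M := by exact_mod_cast hM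
  have hk0 : (0 : ℝ) < k := by exact_mod_cast hk
  set B : ℝ := C0 * (√(|c| * k / M) + √((M : ℝ) ^ 3 / (|c| * k))) with hB
  have hB0 : 0 ≤ B := by positivity
  set z : ℕ → ℂ := fun m => cs c θ (m + k) * (starRingEnd ℂ) (cs c θ m) with hz
  set g : ℕ → ℝ := fun m => a (m + k) * a m with hg
  set E : ℕ → ℝ := fun m => Real.exp (-(W ^ 2 *
    (Real.log (((m + k : ℕ) : ℝ) + θ) - Real.log (m + θ)) ^ 2 / 4)) with hE
  have hFq : ∀ m, Fq a θ c W (m + k) m = z m * (g m : ℂ) * (E m : ℂ) := by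
    intro m
    unfold Fq
    simp only [hz, hg, hE]
    push_cast
    ring
  have hgA : ∀ m, M < m → |g m| ≤ A ^ 2 := by
    intro m hm
    simp only [hg]
    rw [abs_mul, sq]
    exact mul_le_mul (h1 _ (by omega)) (h1 _ hm) (abs_nonneg _) hA
  have hgV : ∀ m, M < m → |g (m + 1) - g m| ≤ 2 * A ^ 2 / M := by
    intro m hm
    simp only [hg]
    have e1 : a (m + 1 + k) * a (m + 1) - a (m + k) * a m =
        (a (m + k + 1) - a (m + k)) * a (m + 1) + a (m + k) * (a (m + 1) - a m) := by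
      rw [show m + 1 + k = m + k + 1 by ring]; ring
    rw [e1]
    refine (abs_add_le _ _).trans ?_
    rw [abs_mul, abs_mul]
    have e2 : |a (m + k + 1) - a (m + k)| * |a (m + 1)| ≤ A / M * A :=
      mul_le_mul (h3 _ (by omega)) (h1 _ (by omega)) (abs_nonneg _) (by positivity)
    have e3 : |a (m + k)| * |a (m + 1) - a m| ≤ A * (A / M) :=
      mul_le_mul (h1 _ (by omega)) (h3 _ hm) (abs_nonneg _) hA
    calc _ ≤ A / M * A + A * (A / M) := add_le_add e2 e3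
      _ = 2 * A ^ 2 / M := by ring
  have hbv : ∀ n, M ≤ n → n ≤ 8 * M → ‖∑ m ∈ Ioc M n, z m * (g m : ℂ)‖ ≤ B * (15 * A ^ 2) := by
    intro n hn1 hn2
    rcases hn1.lt_or_eq with hn | hn
    · have e1 : ∑ j ∈ Ico (M + 1) n, |g (j + 1) - g j| ≤ 14 * A ^ 2 := by
        calc ∑ j ∈ Ico (M + 1) n, |g (j + 1) - g j| ≤ ∑ j ∈ Ico (M + 1) n, 2 * A ^ 2 / M :=
              Finset.sum_le_sum fun j hj => hgV j (by have := (mem_Ico.1 hj).1; omega)
          _ = ((n - (M + 1) : ℕ) : ℝ) * (2 * A ^ 2 / M) := by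
              rw [Finset.sum_const, Nat.card_Ico, nsmul_eq_mul]
          _ ≤ (7 * M) * (2 * A ^ 2 / M) := by
              refine mul_le_mul_of_nonneg_right ?_ (by positivity)
              have : n - (M + 1) ≤ 7 * M := by omega
              exact_mod_cast this
          _ = 14 * A ^ 2 := by field_simp; ring
      have e2 := abel_bv z g M n B (A ^ 2) (14 * A ^ 2) hB0 hn
        (fun j hj1 hj2 => hsmd j hj1 (by omega)) (hgA n hn) e1
      refine e2.trans (le_of_eq ?_)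
      ring
    · subst hn
      simp only [Finset.Ioc_self, Finset.sum_empty, norm_zero]
      positivity
  have hElog : ∀ m : ℕ, M < m → 0 ≤ Real.log (((m + k : ℕ) : ℝ) + θ) - Real.log (m + θ) := by
    intro m hm
    have hm0 : (0 : ℝ) < m := by exact_mod_cast (show 0 < m by omega)
    rw [sub_nonneg]
    refine Real.log_le_log (by positivity) ?_
    push_cast; linarith
  have hEmono : ∀ n, M + 1 ≤ n → E n ≤ E (n + 1) := by
    intro n hn
    simp only [hE]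
    refine Real.exp_le_exp.2 ?_
    have hn0 : (0 : ℝ) < n := by exact_mod_cast (show 0 < n by omega)
    have e1 := hElog (n + 1) (by omega)
    have e2 : Real.log (((n + 1 + k : ℕ) : ℝ) + θ) - Real.log (((n + 1 : ℕ) : ℝ) + θ) ≤
        Real.log (((n + k : ℕ) : ℝ) + θ) - Real.log (n + θ) := by
      rw [← Real.log_div (by positivity) (by positivity), ← Real.log_div (by positivity)
        (by positivity)]
      refine Real.log_le_log (by positivity) ?_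
      rw [div_le_div_iff₀ (by positivity) (by positivity)]
      push_cast
      nlinarith
    have e3 := pow_le_pow_left₀ e1 e2 2
    have e4 : (0:ℝ) ≤ W ^ 2 := by positivity
    nlinarith [mul_le_mul_of_nonneg_left e3 e4]
  have hE8 : E (8 * M) ≤ Real.exp (-(W / (36 * M) * k) ^ 2) := by
    simp only [hE]
    refine Real.exp_le_exp.2 ?_
    have e1 : (k : ℝ) / (18 * M) ≤
        Real.log (((8 * M + k : ℕ) : ℝ) + θ) - Real.log (((8 * M : ℕ) : ℝ) + θ) := by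
      have hx : (0 : ℝ) < ((8 * M : ℕ) : ℝ) + θ := by push_cast; positivity
      have hx' : (0 : ℝ) < ((8 * M + k : ℕ) : ℝ) + θ := by push_cast; positivity
      rw [← Real.log_div hx'.ne' hx.ne']
      refine le_trans ?_ (Real.one_sub_inv_le_log_of_pos (by positivity))
      rw [inv_div]
      have e2 : 1 - (((8 * M : ℕ) : ℝ) + θ) / (((8 * M + k : ℕ) : ℝ) + θ) =
          k / (((8 * M + k : ℕ) : ℝ) + θ) := by
        rw [eq_div_iff hx'.ne', sub_mul, div_mul_cancel₀ _ hx'.ne']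
        push_cast; ring
      rw [e2]
      refine div_le_div_of_nonneg_left hk0.le hx' ?_
      have : (k : ℝ) ≤ 7 * M := by exact_mod_cast hk2
      have : (1 : ℝ) ≤ M := by exact_mod_cast hM
      push_cast; linarith
    have e2 := pow_le_pow_left₀ (by positivity) e1 2
    have e4 : (0:ℝ) ≤ W ^ 2 := by positivity
    have e5 := mul_le_mul_of_nonneg_left e2 e4
    have e6 : (W / (36 * M) * k) ^ 2 = W ^ 2 * ((k : ℝ) / (18 * M)) ^ 2 / 4 := by
      field_simp; norm_num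
    rw [e6]
    linarith
  have habel := abel_mono (fun m => z m * (g m : ℂ)) E M (8 * M) (B * (15 * A ^ 2)) (by positivity)
    hbv hEmono (fun n _ => (Real.exp_pos _).le) (by omega)
  rw [Finset.sum_congr rfl fun m _ => hFq m]
  refine habel.trans ?_
  calc 2 * (B * (15 * A ^ 2)) * E (8 * M) ≤
      2 * (B * (15 * A ^ 2)) * Real.exp (-(W / (36 * M) * k) ^ 2) :=
        mul_le_mul_of_nonneg_left hE8 (by positivity)
    _ = _ := by rw [hB]; ring

theorem core (hSmd : StSmd) : ∃ C : ℝ, 0 < C ∧ ∀ (M : ℕ) (a : ℕ → ℝ) (A θ c W : ℝ), 1 ≤ M →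
    0 ≤ A → 0 ≤ θ → θ ≤ 1 → 1 ≤ W → 1 ≤ |c| → (∀ m, M < m → |a m| ≤ A) →
    (∀ m, 8 * M < m → a m = 0) → (∀ m, M < m → |a (m + 1) - a m| ≤ A / M) →
    ∫ s, ‖∑ m ∈ Ioc M (8 * M), (a m : ℂ) * cs s θ m‖ ^ 2 * gau c W s ≤
      C * A ^ 2 * (W * M + √|c| * M / √W + (M : ℝ) ^ 2 * (√W / √|c|)) := by
  obtain ⟨C0, hC0, hsmd⟩ := hSmd
  refine ⟨14 + 2 * (60 * C0 * 3456), by positivity, ?_⟩
  intro M a A θ c W hM hA hθ hθ1 hW hc h1 h2 h3
  have hM0 : (0 : ℝ) < M := by exact_mod_cast hM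
  have hW0 : (0 : ℝ) < W := by linarith
  have hc0 : 0 < |c| := by linarith
  have hquad := quad (Ioc M (8 * M)) a θ c W hW0
  have hdiag := diagonals (Fq a θ c W) M (7 * M) (fun m m' => Fq_conj a θ c W m m')
    (fun m m' hm' => by
      unfold Fq
      rw [h2 m' (by omega)]
      simp)
  rw [show M + 7 * M = 8 * M by ring] at hdiag
  have hd1 : ∑ m ∈ Ioc M (8 * M), ‖Fq a θ c W m m‖ ≤ 7 * M * A ^ 2 := by
    calc ∑ m ∈ Ioc M (8 * M), ‖Fq a θ c W m m‖ ≤ ∑ m ∈ Ioc M (8 * M), A ^ 2 := by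
          refine Finset.sum_le_sum fun m hm => ?_
          rw [Fq_diag]
          exact pow_le_pow_left₀ (abs_nonneg _) (h1 m (mem_Ioc.1 hm).1) 2
      _ = 7 * M * A ^ 2 := by
          rw [Finset.sum_const, Nat.card_Ioc, nsmul_eq_mul, show 8 * M - M = 7 * M by omega]
          push_cast; ring
  set δ : ℝ := W / (36 * M) with hδ
  have hδ0 : 0 < δ := by positivity
  have hd2 : ∑ k ∈ Ioc 0 (7 * M), ‖∑ m ∈ Ioc M (8 * M), Fq a θ c W (m + k) m‖ ≤
      30 * A ^ 2 * C0 * (√(|c| / M) * (16 / (δ * √δ)) + √((M : ℝ) ^ 3 / |c|) * (4 / √δ)) := by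
    have e1 : ∀ k ∈ Ioc 0 (7 * M), ‖∑ m ∈ Ioc M (8 * M), Fq a θ c W (m + k) m‖ ≤
        30 * A ^ 2 * C0 * (√(|c| / M) * (√(k : ℝ) * Real.exp (-(δ * k) ^ 2)) +
          √((M : ℝ) ^ 3 / |c|) * (1 / √(k : ℝ) * Real.exp (-(δ * k) ^ 2))) := by
      intro k hk
      obtain ⟨hk1, hk2⟩ := mem_Ioc.1 hk
      have hk0 : (0 : ℝ) < k := by exact_mod_cast hk1
      refine (offdiag C0 hC0 M k a A θ c W hM hA hθ hθ1 hW hc hk1 hk2 (fun n hn1 hn2 =>
        hsmd M n k c θ hM hn1 hn2 hk1 (by omega) hθ hθ1 hc) h1 h3).trans (le_of_eq ?_)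
      have e2 : √(|c| * k / M) = √(|c| / M) * √(k : ℝ) := by
        rw [← Real.sqrt_mul (by positivity)]
        congr 1; ring
      have e3 : √((M : ℝ) ^ 3 / (|c| * k)) = √((M : ℝ) ^ 3 / |c|) * (1 / √(k : ℝ)) := by
        rw [← Real.sqrt_one, ← Real.sqrt_div zero_le_one, ← Real.sqrt_mul (by positivity)]
        congr 1; field_simp
      rw [e2, e3]
      ring
    refine (Finset.sum_le_sum e1).trans ?_
    rw [← Finset.mul_sum, Finset.sum_add_distrib, ← Finset.mul_sum, ← Finset.mul_sum]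
    refine mul_le_mul_of_nonneg_left ?_ (by positivity)
    refine add_le_add ?_ ?_
    · exact mul_le_mul_of_nonneg_left (sumk2 δ hδ0 (7 * M)) (Real.sqrt_nonneg _)
    · exact mul_le_mul_of_nonneg_left (sumk1 δ hδ0 (7 * M)) (Real.sqrt_nonneg _)
  -- square roots
  set x := √W with hx
  set y := √|c| with hy
  set w := √(M : ℝ) with hw
  have hx0 : 0 < x := Real.sqrt_pos.2 hW0
  have hy0 : 0 < y := Real.sqrt_pos.2 hc0
  have hw0 : 0 < w := Real.sqrt_pos.2 hM0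
  have hx2 : W = x ^ 2 := (Real.sq_sqrt hW0.le).symm
  have hy2 : |c| = y ^ 2 := (Real.sq_sqrt hc0.le).symm
  have hw2 : (M : ℝ) = w ^ 2 := (Real.sq_sqrt hM0.le).symm
  have hsδ : √δ = x / (6 * w) := by
    rw [hδ, hx2, hw2, show x ^ 2 / (36 * w ^ 2) = (x / (6 * w)) ^ 2 by field_simp; norm_num]
    exact Real.sqrt_sq (by positivity)
  have hs1 : √(|c| / M) = y / w := by
    rw [hy2, hw2, ← div_pow]
    exact Real.sqrt_sq (by positivity)
  have hs2 : √((M : ℝ) ^ 3 / |c|) = w ^ 3 / y := by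
    rw [hy2, hw2, show (w ^ 2) ^ 3 / y ^ 2 = (w ^ 3 / y) ^ 2 by ring]
    exact Real.sqrt_sq (by positivity)
  have hpi : √Real.pi ≤ 2 := by
    rw [show (2 : ℝ) = √4 by
      rw [show (4 : ℝ) = 2 ^ 2 by norm_num]; exact (Real.sqrt_sq (by norm_num)).symm]
    exact Real.sqrt_le_sqrt Real.pi_le_four
  have htot : ‖∑ m ∈ Ioc M (8 * M), ∑ m' ∈ Ioc M (8 * M), Fq a θ c W m m'‖ ≤
      7 * M * A ^ 2 + 2 * (30 * A ^ 2 * C0 *
        (√(|c| / M) * (16 / (δ * √δ)) + √((M : ℝ) ^ 3 / |c|) * (4 / √δ))) := by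
    refine hdiag.trans (add_le_add hd1 ?_)
    exact mul_le_mul_of_nonneg_left hd2 (by norm_num)
  have hnn : 0 ≤ ‖∑ m ∈ Ioc M (8 * M), ∑ m' ∈ Ioc M (8 * M), Fq a θ c W m m'‖ := norm_nonneg _
  have h4 : √Real.pi * W * ‖∑ m ∈ Ioc M (8 * M), ∑ m' ∈ Ioc M (8 * M), Fq a θ c W m m'‖ ≤
      2 * W * (7 * M * A ^ 2 + 2 * (30 * A ^ 2 * C0 *
        (√(|c| / M) * (16 / (δ * √δ)) + √((M : ℝ) ^ 3 / |c|) * (4 / √δ)))) := by
    refine mul_le_mul (mul_le_mul_of_nonneg_right hpi hW0.le) htot hnn (by positivity)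
  refine hquad.trans (h4.trans ?_)
  rw [hs1, hs2, hsδ, hδ, hx2, hw2]
  have h5 : 2 * x ^ 2 * (7 * w ^ 2 * A ^ 2 + 2 * (30 * A ^ 2 * C0 *
        (y / w * (16 / (x ^ 2 / (36 * w ^ 2) * (x / (6 * w)))) + w ^ 3 / y * (4 / (x / (6 * w)))))) =
      A ^ 2 * (14 * (x ^ 2 * w ^ 2) + 2 * (60 * C0 * 3456) * (y * w ^ 2 / x) +
        2 * (60 * C0 * 24) * ((w ^ 2) ^ 2 * (x / y))) := by
    field_simp
    ring
  rw [h5]
  have p1 : 0 ≤ x ^ 2 * w ^ 2 := by positivity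
  have p2 : 0 ≤ y * w ^ 2 / x := by positivity
  have p3 : 0 ≤ (w ^ 2) ^ 2 * (x / y) := by positivity
  have h6 : 14 * (x ^ 2 * w ^ 2) + 2 * (60 * C0 * 3456) * (y * w ^ 2 / x) +
        2 * (60 * C0 * 24) * ((w ^ 2) ^ 2 * (x / y)) ≤
      (14 + 2 * (60 * C0 * 3456)) * (x ^ 2 * w ^ 2 + y * w ^ 2 / x + (w ^ 2) ^ 2 * (x / y)) := by
    nlinarith [mul_nonneg hC0.le p1, mul_nonneg hC0.le p2, mul_nonneg hC0.le p3]
  calc A ^ 2 * (14 * (x ^ 2 * w ^ 2) + 2 * (60 * C0 * 3456) * (y * w ^ 2 / x) +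
        2 * (60 * C0 * 24) * ((w ^ 2) ^ 2 * (x / y))) ≤
      A ^ 2 * ((14 + 2 * (60 * C0 * 3456)) *
        (x ^ 2 * w ^ 2 + y * w ^ 2 / x + (w ^ 2) ^ 2 * (x / y))) :=
        mul_le_mul_of_nonneg_left h6 (by positivity)
    _ = _ := by ring

end Pool.Agent.Helper81.GW
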